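import Pool.Agent.Lib.MP_81defa_co.CapRed

set_option autoImplicit false

open Filter

namespace Pool.Agent.Results.MP_81defa_co.CapSetReduction

open Pool.Agent.MP81defa

/-- Let `c*` be the growth rate of 3-sunflower-free families and `C` the growth rate of cap sets
(subsets of `(Fin n → ZMod 3)` without lines). Then `c* ≤ (1 + C) / 2`. -/
theorem result :
    limsup (fun n : ℕ => (M n : ℝ) ^ (1 / (n : ℝ))) atTop ≤
      (1 + limsup (fun n : ℕ => (capMax n : ℝ) ^ (1 / (n : ℝ))) atTop) / 2 :=
  limsup_M_le_cap

end Pool.Agent.Results.MP_81defa_co.CapSetReduction
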