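import Pool.Agent.Lib.MP_81defa_co.Main

set_option autoImplicit false

open Filter

namespace Pool.Agent.Results.MP_81defa_co.LowerBound

open Pool.Agent.MP81defa

/-- The exponential growth rate of 3-sunflower-free families is at least `1.57001`; for every
`c < 1.57001` and all large `n` there are sunflower-free families with more than `c ^ n` members. -/
theorem result :
    (1.57001 : ℝ) ≤ limsup (fun n : ℕ => (M n : ℝ) ^ (1 / (n : ℝ))) atTop ∧
    ∀ c : ℝ, 0 < c → c < 1.57001 → ∀ᶠ n : ℕ in atTop, c ^ n < M n :=
  ⟨limsup_ge, fun _ h0 h1 => eventually_lt h0 h1⟩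

end Pool.Agent.Results.MP_81defa_co.LowerBound
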