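import Pool.Agent.Lib.MP_81defa_co.Final

set_option autoImplicit false

open Filter

namespace Pool.Agent.Results.MP_81defa_co.UpperBound

open Pool.Agent.MP81defa

/-- The exponential growth rate of 3-sunflower-free families is less than `3 / 2 ^ (2 / 3)`: it is
at most `1 + (1 - 2 / (3 * √3)) ^ (1 / 3) = 1.85045...`, and `M n` is at most `1.8505 ^ n` for all
large `n`. -/
theorem result :
    limsup (fun n : ℕ => (M n : ℝ) ^ (1 / (n : ℝ))) atTop < 3 / (2 : ℝ) ^ (2 / 3 : ℝ) ∧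
    limsup (fun n : ℕ => (M n : ℝ) ^ (1 / (n : ℝ))) atTop ≤
      1 + (1 - 2 / (3 * √(3 : ℝ))) ^ (1 / 3 : ℝ) ∧
    1 + (1 - 2 / (3 * √(3 : ℝ))) ^ (1 / 3 : ℝ) < 1.8505 ∧
    (1.8505 : ℝ) < 3 / (2 : ℝ) ^ (2 / 3 : ℝ) ∧
    (∀ᶠ n : ℕ in atTop, (M n : ℝ) ≤ (1.8505 : ℝ) ^ n) :=
  ⟨Pool.Agent.MP81defaV.main.1.trans_lt
      (Pool.Agent.MP81defaV.const_lt.trans Pool.Agent.MP81defaV.lt_three_div),
    Pool.Agent.MP81defaV.main.1, Pool.Agent.MP81defaV.const_lt,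
    Pool.Agent.MP81defaV.lt_three_div,
    Pool.Agent.MP81defaV.main.2 _ Pool.Agent.MP81defaV.const_lt⟩

end Pool.Agent.Results.MP_81defa_co.UpperBound
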